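import Pool.Agent.H418R3.FB.Stmts

/-!
Project H418-FB, TaskTreeNeg: a tree without infinite branches has bad sparse lists.
-/

set_option autoImplicit false

open Set Topology Filter

namespace Pool.Agent.H165R3.FB

open Pool.Agent.H418R3.FB

/-- a fast growing sequence -/
def al (l : ℕ → ℕ) : ℕ → ℕ
  | 0 => l 0
  | i + 1 => max (l (al l i + 1)) (al l i + 1)

lemma seg_length (β : ℕ → ℕ) (n : ℕ) : (seg β n).length = n := by simp [seg]

lemma seg_getD (β : ℕ → ℕ) (n i : ℕ) (hi : i < n) : (seg β n).getD i 0 = β i := by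
  rw [List.getD_eq_getElem _ _ (by rw [seg_length]; exact hi)]
  simp [seg]

lemma seg_succ (β : ℕ → ℕ) (n : ℕ) : seg β (n + 1) = seg β n ++ [β n] := by
  simp [seg, List.range_succ]

lemma seg_ofFn (β : ℕ → ℕ) (n : ℕ) : seg β n = List.ofFn (fun i : Fin n => β i) := by
  apply List.ext_getElem
  · simp [seg]
  · intro i h1 h2
    simp [seg]

lemma al_strict (l : ℕ → ℕ) : StrictMono (al l) := by
  apply strictMono_nat_of_lt_succ
  intro i
  show al l i < max (l (al l i + 1)) (al l i + 1)
  exact lt_of_lt_of_le (Nat.lt_succ_self _) (le_max_right _ _)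

lemma seg_sparse (l : ℕ → ℕ) (n : ℕ) (hn : 1 ≤ n) : Sparse l (seg (al l) n) := by
  refine ⟨?_, ?_, ?_⟩
  · unfold seg
    rw [List.pairwise_map]
    exact List.pairwise_lt_range.imp (fun h => al_strict l h)
  · rw [seg_getD _ _ _ hn]
    rfl
  · intro i hi
    rw [seg_length] at hi
    rw [seg_getD _ _ _ (by omega), seg_getD _ _ _ hi]
    exact le_max_left _ _

theorem taskTreeNeg : TaskTreeNeg := by
  intro T hT hno l
  by_contra hcon
  push Not at hcon
  apply hno
  -- for every n there is an element of length n below al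
  have h1 : ∀ n, ∃ t ∈ T, t.length = n ∧ ∀ i < n, t.getD i 0 ≤ al l i := by
    intro n
    have h3 := hcon (seg (al l) (n + 3)) (by rw [seg_length]; omega)
      (seg_sparse l (n + 3) (by omega))
    unfold Bad at h3
    push Not at h3
    obtain ⟨t, ht, hlen, hle⟩ := h3
    rw [seg_length] at hlen hle
    refine ⟨t.take n, hT _ (t.drop n) (by rwa [List.take_append_drop]), by simp [hlen], ?_⟩
    intro i hi
    have h4 := hle i (by omega)
    rw [seg_getD _ _ _ (by omega)] at h4
    have h5 : (t.take n).getD i 0 = t.getD i 0 := by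
      rw [List.getD_eq_getElem _ _ (by simp; omega), List.getD_eq_getElem _ _ (by omega)]
      simp
    rw [h5]
    exact h4
  have hK : IsCompact (Set.univ.pi fun i => Set.Iic (al l i)) :=
    isCompact_univ_pi fun i => (Set.finite_Iic (al l i)).isCompact
  set C : ℕ → Set (ℕ → ℕ) := fun n =>
    (Set.univ.pi fun i => Set.Iic (al l i)) ∩ {β | seg β n ∈ T} with hC
  have hcl : ∀ n, IsClosed {β : ℕ → ℕ | seg β n ∈ T} := by
    intro n
    have e : {β : ℕ → ℕ | seg β n ∈ T} =
        (fun (β : ℕ → ℕ) (i : Fin n) => β i) ⁻¹' {f | List.ofFn f ∈ T} := by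
      ext β
      simp only [mem_setOf_eq, mem_preimage]
      rw [seg_ofFn]
    rw [e]
    exact (isClosed_discrete _).preimage (by fun_prop)
  have hne := IsCompact.nonempty_iInter_of_sequence_nonempty_isCompact_isClosed C
    (by
      intro n β hβ
      refine ⟨hβ.1, ?_⟩
      have h2 : seg β (n + 1) ∈ T := hβ.2
      rw [seg_succ] at h2
      exact hT _ _ h2)
    (by
      intro n
      obtain ⟨t, ht, hlen, hle⟩ := h1 n
      refine ⟨fun i => t.getD i 0, ?_, ?_⟩
      · intro i _
        show t.getD i 0 ≤ al l i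
        by_cases hi : i < n
        · exact hle i hi
        · rw [List.getD_eq_default _ _ (by omega)]
          exact Nat.zero_le _
      · show seg (fun i => t.getD i 0) n ∈ T
        have e : seg (fun i => t.getD i 0) n = t := by
          apply List.ext_getElem
          · rw [seg_length, hlen]
          · intro i h2 h3
            simp only [seg, List.getElem_map, List.getElem_range]
            rw [List.getD_eq_getElem _ _ h3]
        rw [e]
        exact ht)
    (hK.inter_right (hcl 0))
    (fun n => hK.isClosed.inter (hcl n))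
  obtain ⟨β, hβ⟩ := hne
  exact ⟨β, fun n => (mem_iInter.1 hβ n).2⟩

end Pool.Agent.H165R3.FB
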